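import Pool.Agent.T2H52.AW.Win
import Pool.Agent.H560R3.GB.Defs

/-!
# Goldbach pairs in short windows, and the least summand, for almost all elements of automatic sets

Definitions used (in `Pool.Agent.H560R3.GB`): `C₂`: the twin prime constant
`∏_{p > 2} (1 - 1 / (p - 1) ^ 2)`; `sing m`: the singular series `2 C₂ ∏_{p ∣ m, p > 2} (p - 1) / (p - 2)`.
`Nat.digits b v` is the list of the digits of `v` in base `b`, the least significant digit first; a finite automaton
reading these lists decides which integers are accepted.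
-/

set_option autoImplicit false

namespace Pool.Agent.Results.MP_bae66e_nt.AutomaticWindows

open Finset Filter Pool.Agent.H560R3.GB

/-- The number of primes `p` with `y₁ < p ≤ y₂` such that `m - p` is a prime. -/
def R (m y₁ y₂ : ℕ) : ℕ := ((Ioc y₁ y₂).filter (fun p => p.Prime ∧ (m - p).Prime)).card

/-- (1) There is a prime `p ≤ m / log ^ A m` such that `m - p` is a prime (thus `g(m) ≤ m / log ^ A m`
in the notation of the problem); (2) in every window `(y₁, y₂]` of a length of at least `m / log ^ A m`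
with `0 ≤ y₁ < y₂ ≤ m` the number of primes `p` such that `m - p` is a prime agrees with
`sing m * (y₂ - y₁) / log ^ 2 m` up to a relative error of at most `ε`. -/
def Holds (ε : ℝ) (A m : ℕ) : Prop :=
  (∃ p : ℕ, p.Prime ∧ (m - p).Prime ∧ (p : ℝ) ≤ m / Real.log m ^ A) ∧
  ∀ y₁ y₂ : ℕ, y₁ < y₂ → y₂ ≤ m → (m : ℝ) / Real.log m ^ A ≤ (y₂ : ℝ) - y₁ →
    |(R m y₁ y₂ : ℝ) - sing m * ((y₂ : ℝ) - y₁) / Real.log m ^ 2| ≤ ε * (sing m * ((y₂ : ℝ) - y₁) / Real.log m ^ 2)

lemma holds_of (ε : ℝ) (A : ℕ) : ∃ m₀ : ℕ, ∀ m : ℕ, m₀ ≤ m → 2 ∣ m →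
    Pool.Agent.W93.PG.WinP (min ε (1 / 2)) (A + 1) m → Holds ε A m := by
  obtain ⟨n1, h1⟩ := Pool.Agent.H373R2.T7.ev_L' 2
  obtain ⟨n2, h2⟩ := Pool.Agent.H373R2.T7.ev_log' (A + 1) 1
  refine ⟨n1 + n2 + 4, ?_⟩
  intro m hm _ hwin
  have a1 := h1 m (by omega)
  have a2 := h2 m (by omega)
  have hm4 : (4 : ℝ) ≤ m := by exact_mod_cast (by omega : 4 ≤ m)
  have hm0 : (0 : ℝ) < m := by linarith
  rw [one_mul] at a2
  obtain ⟨M, hM⟩ : ∃ M, M = Real.log (m : ℝ) := ⟨_, rfl⟩
  have hs := Pool.Agent.W93.GB.one_le_sing m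
  unfold Pool.Agent.W93.PG.WinP at hwin
  unfold Holds
  rw [← hM] at a1 a2 hwin ⊢
  have hM1 : 1 ≤ M := by linarith
  have hM0 : 0 < M := by linarith
  have hmm : √(m : ℝ) * √(m : ℝ) = m := Real.mul_self_sqrt hm0.le
  have hsm0 : 0 < √(m : ℝ) := Real.sqrt_pos.2 hm0
  have hle : (m : ℝ) / M ^ (A + 1) ≤ m / M ^ A := by
    apply div_le_div_of_nonneg_left hm0.le (by positivity)
    exact pow_le_pow_right₀ hM1 (by omega)
  have hR : ∀ y₁ y₂, Pool.Agent.W93.PG.cnt m y₁ y₂ = R m y₁ y₂ := fun _ _ => rfl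
  simp only [hR] at hwin
  have hsm : √(m : ℝ) ≤ m / M ^ (A + 1) := by
    rw [le_div_iff₀ (by positivity)]
    calc √(m : ℝ) * M ^ (A + 1) ≤ √(m : ℝ) * √(m : ℝ) := mul_le_mul_of_nonneg_left a2 hsm0.le
      _ = m := hmm
  have hsm2 : 2 ≤ √(m : ℝ) := by
    apply Real.le_sqrt_of_sq_le
    linarith
  constructor
  · obtain ⟨y, hy⟩ : ∃ y, y = ⌈(m : ℝ) / M ^ (A + 1)⌉₊ := ⟨_, rfl⟩
    have hy1 : (m : ℝ) / M ^ (A + 1) ≤ y := by rw [hy]; exact Nat.le_ceil _
    have hy2 : (y : ℝ) ≤ m / M ^ (A + 1) + 1 := by rw [hy]; exact (Nat.ceil_lt_add_one (by positivity)).le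
    have hy3 : (y : ℝ) ≤ m / M ^ A := by
      have e : (m : ℝ) / M ^ A = m / M ^ (A + 1) * M := by rw [pow_succ]; field_simp
      have h5 : (m : ℝ) / M ^ (A + 1) * 2 ≤ m / M ^ (A + 1) * M := mul_le_mul_of_nonneg_left a1 (by positivity)
      rw [e]
      linarith
    have hy4 : y ≤ m := by
      have h5 : (m : ℝ) / M ^ A ≤ m := div_le_self hm0.le (one_le_pow₀ hM1)
      exact_mod_cast hy3.trans h5
    have hy0 : 0 < y := by
      have : (0 : ℝ) < y := by linarith
      exact_mod_cast this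
    have hw := hwin 0 y hy0 hy4 (by push_cast; linarith)
    have hmain : 0 < sing m * ((y : ℝ) - (0 : ℕ)) / M ^ 2 := by
      have : (0 : ℝ) < (y : ℝ) - (0 : ℕ) := by push_cast; linarith
      positivity
    have h6 : |(R m 0 y : ℝ) - sing m * ((y : ℝ) - (0 : ℕ)) / M ^ 2| ≤ 1 / 2 * (sing m * ((y : ℝ) - (0 : ℕ)) / M ^ 2) :=
      hw.trans (mul_le_mul_of_nonneg_right (min_le_right _ _) hmain.le)
    have h7 : (0 : ℝ) < R m 0 y := by
      rw [abs_le] at h6
      linarith [h6.1]
    have h8 : 0 < R m 0 y := by exact_mod_cast h7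
    unfold R at h8
    rw [card_pos] at h8
    obtain ⟨p, hp⟩ := h8
    rw [mem_filter, mem_Ioc] at hp
    have h9 : (p : ℝ) ≤ y := by exact_mod_cast hp.1.2
    exact ⟨p, hp.2.1, hp.2.2, h9.trans hy3⟩
  · intro y₁ y₂ h12 hy2 hΔ
    have hw := hwin y₁ y₂ h12 hy2 (hle.trans hΔ)
    refine hw.trans ?_
    apply mul_le_mul_of_nonneg_right (min_le_left _ _)
    have h5 : (0 : ℝ) ≤ (y₂ : ℝ) - y₁ := by
      have : (y₁ : ℝ) ≤ y₂ := by exact_mod_cast h12.le
      linarith
    positivity

open Classical in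
/-- the number of the `v < N` which are accepted by the automaton `M` (reading the digits of `v` in base `b`, the least
significant digit first) and have the property `E` -/
noncomputable def acc {σ : Type} (b : ℕ) (M : DFA ℕ σ) (N : ℕ) (E : ℕ → Prop) : ℕ :=
  ((range N).filter (fun v => Nat.digits b v ∈ M.accepts ∧ E v)).card

lemma acc_le {σ : Type} (b : ℕ) (M : DFA ℕ σ) (N : ℕ) (E F : ℕ → Prop) (h : ∀ v, v < N → E v → F v)
    [DecidablePred fun v => Nat.digits b v ∈ M.accepts ∧ F v] :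
    acc b M N E ≤ ((range N).filter fun v => Nat.digits b v ∈ M.accepts ∧ F v).card := by
  classical
  unfold acc
  apply card_le_card
  intro v hv
  rw [mem_filter, mem_range] at hv ⊢
  exact ⟨hv.1, hv.2.1, h v hv.1 hv.2.2⟩

lemma acc_true {σ : Type} (b : ℕ) (M : DFA ℕ σ) (N : ℕ) [DecidablePred fun v => Nat.digits b v ∈ M.accepts] :
    acc b M N (fun _ => True) = ((range N).filter fun v => Nat.digits b v ∈ M.accepts).card := by
  unfold acc
  congr 1
  ext v
  simp only [mem_filter, and_true]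

/-- **Goldbach pairs in short windows for almost all elements of automatic sets.** Let `S` be an automatic set (the set
of the integers `v ≥ 0` whose digits in base `b` are accepted by the finite automaton `M`) of more than polylogarithmic
size: for every `k` there are infinitely many `N` such that more than `(log N) ^ k` elements of `S` are smaller than `N`.
Let `B`, `A`, `U`, the integer `μ ≠ 0` and `ε > 0` be fixed, let `N` be large, and let `c` be an arbitrary integer with
`|c| ≤ B N`. Then all the elements `v < N` of `S`, up to a proportion of at most `1 / (log N) ^ U` of them, have the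
following property: if `m = c + μ v` is positive and even, then there is a prime `p ≤ m / (log m) ^ A` such that `m - p`
is a prime, and in all windows of length at least `m / (log m) ^ A` in `[0, m]` the number of such primes is as
predicted by Hardy and Littlewood, up to a relative error of at most `ε`. -/
theorem result {σ : Type} [Fintype σ] (b : ℕ) (hb : 2 ≤ b) (M : DFA ℕ σ)
    (hS : ∀ k : ℕ, ∃ᶠ N : ℕ in atTop, Real.log N ^ k < (acc b M N (fun _ => True) : ℝ))
    (B A U : ℕ) (μ : ℤ) (hμ : μ ≠ 0) (ε : ℝ) (hε : 0 < ε) :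
    ∃ N₀ : ℕ, ∀ N : ℕ, N₀ ≤ N → ∀ c : ℤ, |c| ≤ B * (N : ℤ) →
      (acc b M N (fun v => 0 < c + μ * v ∧ Even (c + μ * v) ∧ ¬ Holds ε A (c + μ * v).toNat) : ℝ) ≤
        acc b M N (fun _ => True) / Real.log N ^ U := by
  classical
  obtain ⟨m₀, h0⟩ := holds_of ε A
  obtain ⟨N₀, h1⟩ := Pool.Agent.T2H52.AW.aut_windows b hb M
    (fun k => (hS k).mono (fun N hN => by rwa [acc_true] at hN)) μ hμ B (A + 1) U m₀ (min ε (1 / 2))
    (lt_min hε (by norm_num)) (Holds ε A) h0
  refine ⟨N₀, fun N hN c hc => ?_⟩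
  have h3 := h1 N hN c hc
  rw [acc_true]
  refine le_trans ?_ h3
  rw [Nat.cast_le]
  exact acc_le b M N _ _ (fun v _ hv => ⟨hv.1, even_iff_two_dvd.1 hv.2.1, hv.2.2⟩)

end Pool.Agent.Results.MP_bae66e_nt.AutomaticWindows
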