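import Mathlib
import Pool.Agent.T2H52.MG.A10

/-! # Irregularities in the number of Goldbach representations with a small prime

For an even number `m` and `y > 0` let `reps m y` be the number of the primes `p ≤ y` for which `m - p` is a prime. The expected
number is `expected m y = S(m) y / (log y log m)`, with the singular series `S(m) = 2 C₂ ∏_{p ∣ m, p > 2} (p - 1) / (p - 2)`.

We take `y = C (log m) ^ A (log log m) ^ B` with `1 < A ≤ 2` and any real `B`. The case `A = 2`, `B = 1` is exactly the scale of the
conjecture of Granville, van de Lune and te Riele, which says that `reps m y > 0` for a suitable `C` and all large even `m`.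
The theorem is an analogue of Maier's theorem on the primes in short intervals, by a Maier matrix whose columns are the shifts by
primes; the class of the rows is found by an averaging argument over all the classes `1, ..., Y`:

* for every `κ > e ^ γ / 2` (and `e ^ γ / 2 = 0.89...`), at least `x ^ (1 - η)` even `m ≤ x` have `reps m y ≤ κ expected m y`;
* for every `κ < e ^ γ / A` (and `e ^ γ = 1.78...`), at least `x ^ (1 - η)` even `m ≤ x` have `reps m y ≥ κ expected m y`.

So the expected asymptotic formula fails in this range, in particular for every `C > 0` at the scale of the conjecture; and the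
factor `e ^ γ / 2` shows that the constant in the conjecture cannot be predicted by this formula. -/

set_option autoImplicit false

namespace Pool.Agent.Results.MP_bae66e_nt.MaierIrregularities

open Filter Pool.Agent.T2H52.MG

/-- the scale `C (log m) ^ A (log log m) ^ B` -/
noncomputable def scale (A B C : ℝ) (m : ℕ) : ℝ := C * Real.log m ^ A * Real.log (Real.log m) ^ B

/-- `e ^ γ < 1.95`, with the constant `γ` of Euler and Mascheroni -/
theorem exp_gamma_lt : Real.exp Real.eulerMascheroniConstant < 1.95 := by
  have h1 := Real.eulerMascheroniConstant_lt_two_thirds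
  have h2 : Real.exp Real.eulerMascheroniConstant < Real.exp (2 / 3) := Real.exp_lt_exp.2 h1
  have h3 : Real.exp (2 / 3) ≤ 1.95 := by
    have h4 : Real.exp (2 / 3) ^ 3 = Real.exp 1 ^ 2 := by
      rw [← Real.exp_nat_mul, ← Real.exp_nat_mul]
      norm_num
    have h5 := Real.exp_one_lt_d9
    have h6 : Real.exp 1 ^ 2 ≤ 1.95 ^ 3 := by
      have := Real.exp_pos 1
      nlinarith
    rw [← h4] at h6
    exact le_of_pow_le_pow_left₀ (by norm_num) (by norm_num) h6
  linarith

/-- **Irregularities at the scale of the conjecture of Granville, van de Lune and te Riele.** -/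
theorem result :
    (∀ A B C η : ℝ, 1 < A → A ≤ 2 → 0 < C → 0 < η →
      (∀ κ : ℝ, Real.exp Real.eulerMascheroniConstant / 2 < κ → ∀ᶠ x : ℕ in atTop,
        (x : ℝ) ^ (1 - η) ≤ evens (fun m => (reps m (scale A B C m) : ℝ) ≤ κ * expected m (scale A B C m)) x) ∧
      (∀ κ : ℝ, κ < Real.exp Real.eulerMascheroniConstant / A → ∀ᶠ x : ℕ in atTop,
        (x : ℝ) ^ (1 - η) ≤ evens (fun m => κ * expected m (scale A B C m) ≤ (reps m (scale A B C m) : ℝ)) x)) ∧
    (∀ C η : ℝ, 0 < C → 0 < η → ∀ᶠ x : ℕ in atTop, (x : ℝ) ^ (1 - η) ≤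
      evens (fun m => (reps m (C * Real.log m ^ 2 * Real.log (Real.log m)) : ℝ) ≤
        0.98 * expected m (C * Real.log m ^ 2 * Real.log (Real.log m))) x) := by
  have h1 : ∀ A B C η : ℝ, 1 < A → A ≤ 2 → 0 < C → 0 < η →
      (∀ κ : ℝ, Real.exp Real.eulerMascheroniConstant / 2 < κ → ∀ᶠ x : ℕ in atTop,
        (x : ℝ) ^ (1 - η) ≤ evens (fun m => (reps m (scale A B C m) : ℝ) ≤ κ * expected m (scale A B C m)) x) ∧
      (∀ κ : ℝ, κ < Real.exp Real.eulerMascheroniConstant / A → ∀ᶠ x : ℕ in atTop,
        (x : ℝ) ^ (1 - η) ≤ evens (fun m => κ * expected m (scale A B C m) ≤ (reps m (scale A B C m) : ℝ)) x) := by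
    intro A B C η hA1 hA2 hC hη
    have h := adm_pow A B C (by linarith) hC
    exact ⟨fun κ hκ => few hA1 hA2 h κ hκ η hη, fun κ hκ => many hA1 hA2 h κ hκ η hη⟩
  refine ⟨h1, ?_⟩
  intro C η hC hη
  have h2 := (h1 2 1 C η (by norm_num) le_rfl hC hη).1 0.98 (by have := exp_gamma_lt; linarith)
  have h3 : ∀ m : ℕ, scale 2 1 C m = C * Real.log m ^ 2 * Real.log (Real.log m) := by
    intro m
    unfold scale
    rw [Real.rpow_one, Real.rpow_two]
  simpa only [h3] using h2

end Pool.Agent.Results.MP_bae66e_nt.MaierIrregularities
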