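import Pool.Agent.T2H32.GB.Fin

set_option autoImplicit false

/-!
# The least prime in Goldbach representations in the sieved Cramér models

Sieved Cramér models: for a nondecreasing sieving limit `T k ≥ 2` with `T k = (log k) ^ o(1)`, the integers `k ≥ 3`
without prime factors `≤ T k` are put independently into the set of random primes, with probability
`min 1 (1 / (V (T k) log k))`, where `V m = ∏_{q ≤ m} (1 - 1 / q)`; the other integers are not random primes. So `k` is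
a random prime with probability `1 / log k` on average, and random primes avoid the multiples of the small primes.

For an even `m` let `g m` be the least random prime `p` for which `m - p` is a random prime, and `L m = (log m)² loglog m`.
Let `κ` be the limit of `∏_{2 < q ≤ T k} (1 - 1 / (q - 1)²)`; this is the twin prime constant `C₂ = 0.66...` if
`T k → ∞`, and `κ = 1` for `T k = 2`.

The theorem: almost surely `limsup g m / L m = 1 / κ`, over the even `m`. Almost surely `g m ≤ c L m` for all but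
finitely many even `m` if `c > 1 / κ`. For `0 < c < 1 / κ` almost surely `x ^ (1 - c κ + o(1))` of the even `m ≤ x` have
`g m > c L m`, and for every `e < 1 - c κ` almost surely every interval `[n, 4n]` with large `n` contains at least
`n ^ e` of them.
-/

open MeasureTheory ProbabilityTheory Filter Topology

namespace Pool.Agent.Results.MP_bae66e_nt.RandomModelLeastSummand

/-- `V m = ∏ (1 - 1 / q)` over the primes `q ≤ m` -/
noncomputable def V (m : ℕ) : ℝ := ∏ q ∈ (Finset.range (m + 1)).filter Nat.Prime, (1 - 1 / (q : ℝ))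

/-- `k` has no prime factor `≤ m` -/
def Rough (m k : ℕ) : Prop := ∀ q ≤ m, q.Prime → ¬ q ∣ k

/-- an admissible sieving limit: nondecreasing, `T k ≥ 2`, and `T k = (log k) ^ o(1)` -/
def Limit (T : ℕ → ℕ) : Prop := Monotone T ∧ (∀ k, 2 ≤ T k) ∧
  Tendsto (fun k : ℕ => Real.log (T k) / Real.log (Real.log k)) atTop (𝓝 0)

/-- `A k` is the event that `k` is a random prime: these events are independent, of probability
`min 1 (1 / (V (T k) log k))` for the `k ≥ 3` without prime factors `≤ T k`, of probability zero for the others. -/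
structure Model {Ω : Type} [MeasurableSpace Ω] (P : Measure Ω) (T : ℕ → ℕ) (A : ℕ → Set Ω) : Prop where
  measurable : ∀ k, MeasurableSet (A k)
  independent : iIndepSet A P
  probability : ∀ k, 3 ≤ k → Rough (T k) k → P.real (A k) = min 1 (1 / (V (T k) * Real.log k))
  probability_zero : ∀ k, ¬ (3 ≤ k ∧ Rough (T k) k) → P.real (A k) = 0

/-- `∏ (1 - 1 / (q - 1) ^ 2)` over the primes `2 < q ≤ n`; the limit is the twin prime constant -/
noncomputable def C2 (n : ℕ) : ℝ :=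
  ∏ q ∈ (Finset.range (n + 1)).filter (fun q => q.Prime ∧ q ≠ 2), (1 - 1 / ((q : ℝ) - 1) ^ 2)

/-- `(log m) ^ 2 loglog m` -/
noncomputable def L (m : ℕ) : ℝ := Real.log m ^ 2 * Real.log (Real.log m)

/-- `g m`, the least random prime `p` for which `m - p` is a random prime; `⊤` if there is none -/
noncomputable def g {Ω : Type} (A : ℕ → Set Ω) (ω : Ω) (m : ℕ) : EReal :=
  ⨅ p ∈ {p : ℕ | p ≤ m ∧ ω ∈ A p ∧ ω ∈ A (m - p)}, ((p : ℝ) : EReal)

/-- the number of the even `m ≤ x` with `g m > c L m` -/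
noncomputable def N {Ω : Type} (A : ℕ → Set Ω) (c : ℝ) (ω : Ω) (x : ℕ) : ℕ :=
  {m | m ≤ x ∧ Even m ∧ ((c * L m : ℝ) : EReal) < g A ω m}.ncard

theorem result :
    (∃ C₂ : ℝ, 1 / 2 ≤ C₂ ∧ Tendsto C2 atTop (𝓝 C₂) ∧
      ∀ T, Limit T → Tendsto T atTop atTop → Tendsto (fun k => C2 (T k)) atTop (𝓝 C₂)) ∧
    (∀ T, Limit T → ∃ κ : ℝ, 1 / 2 ≤ κ ∧ Tendsto (fun k => C2 (T k)) atTop (𝓝 κ)) ∧
    (∀ T, Limit T → ∃ (Ω : Type) (_ : MeasurableSpace Ω) (P : Measure Ω) (A : ℕ → Set Ω), Model P T A) ∧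
    ∀ (Ω : Type) [MeasurableSpace Ω] (P : Measure Ω) (T : ℕ → ℕ) (A : ℕ → Set Ω) (κ : ℝ), Limit T → Model P T A →
      Tendsto (fun k => C2 (T k)) atTop (𝓝 κ) →
      (∀ᵐ ω ∂P, limsup (fun n : ℕ => g A ω (2 * n) / ((L (2 * n) : ℝ) : EReal)) atTop = ((1 / κ : ℝ) : EReal)) ∧
      (∀ c : ℝ, 1 / κ < c → ∀ᵐ ω ∂P, {m | Even m ∧ ((c * L m : ℝ) : EReal) < g A ω m}.Finite) ∧
      ∀ c : ℝ, 0 < c → c < 1 / κ →
        (∀ᵐ ω ∂P, Tendsto (fun x : ℕ => Real.log (N A c ω x) / Real.log x) atTop (𝓝 (1 - c * κ))) ∧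
        ∀ e : ℝ, 0 < e → e < 1 - c * κ → ∀ᵐ ω ∂P, ∀ᶠ n : ℕ in atTop,
          (n : ℝ) ^ e ≤ {m | n ≤ m ∧ m ≤ 4 * n ∧ Even m ∧ ((c * L m : ℝ) : EReal) < g A ω m}.ncard := by
  refine ⟨?_, fun T hT => Pool.Agent.T2H32.GB.C2_lim T hT.1, ?_, ?_⟩
  · obtain ⟨κ, h1, h2⟩ := Pool.Agent.T2H32.GB.C2_lim id monotone_id
    have h3 : Tendsto C2 atTop (𝓝 κ) := h2
    exact ⟨κ, h1, h3, fun T _ hT2 => h3.comp hT2⟩
  · intro T _
    obtain ⟨Ω, i, P, A, h1, h2, h3⟩ := Pool.Agent.T2H32.CM.exists_indep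
      (fun k => Pool.Agent.T2H32.GM.q T k) (fun k => Pool.Agent.T2H32.GM.q_nonneg T k)
      (fun k => Pool.Agent.T2H32.GM.q_le_one T k)
    refine ⟨Ω, i, P, A, h1, h2, fun k hk hk' => ?_, fun k hk => ?_⟩
    · rw [h3]
      have hk2 : 3 ≤ k ∧ Pool.Agent.T2H32.GM.Rg (T k) k := ⟨hk, hk'⟩
      unfold Pool.Agent.T2H32.GM.q
      rw [if_pos hk2]
      rfl
    · rw [h3]
      have hk2 : ¬ (3 ≤ k ∧ Pool.Agent.T2H32.GM.Rg (T k) k) := hk
      unfold Pool.Agent.T2H32.GM.q
      rw [if_neg hk2]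
  · intro Ω _ P T A κ hT hmod hκ
    have h : Pool.Agent.T2H32.GB.Mdl P T A := by
      refine ⟨hT.1, hT.2.1, hT.2.2, hmod.measurable, hmod.independent, fun k => ?_⟩
      unfold Pool.Agent.T2H32.GM.q
      by_cases hk : 3 ≤ k ∧ Pool.Agent.T2H32.GM.Rg (T k) k
      · rw [if_pos hk]
        exact hmod.probability k hk.1 hk.2
      · rw [if_neg hk]
        exact hmod.probability_zero k hk
    have hκ' : Tendsto (fun k => Pool.Agent.T2H32.GB.C2 (T k)) atTop (𝓝 κ) := hκ
    have hκ0 : 0 < κ := by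
      have h1 : 1 / 2 ≤ κ := ge_of_tendsto' hκ' fun k => Pool.Agent.T2H32.GB.C2_ge _
      linarith
    have hEX : ∀ (c : ℝ) (m : ℕ) (ω : Ω), ω ∈ Pool.Agent.T2H32.GB.EX A c m ↔
        Even m ∧ ((c * L m : ℝ) : EReal) < g A ω m := fun c m ω => Pool.Agent.T2H32.GB.EX_iff A c m ω
    refine ⟨h.limsup_eq κ hκ' hκ0, fun c hc => ?_, fun c hc0 hc => ⟨?_, fun e he hec => ?_⟩⟩
    · filter_upwards [h.fin κ hκ' hκ0 c hc] with ω hω
      simpa only [hEX] using hω
    · have h1 : ∀ (ω : Ω) (x : ℕ), N A c ω x = Pool.Agent.T2H32.GB.NX A c x ω := by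
        intro ω x
        unfold N Pool.Agent.T2H32.GB.NX
        simp only [hEX]
      simp only [h1]
      exact h.count κ hκ' hκ0 c hc0 hc
    · filter_upwards [h.intervals κ hκ' hκ0 c e hc0 he hec] with ω hω
      simpa only [hEX] using hω

end Pool.Agent.Results.MP_bae66e_nt.RandomModelLeastSummand
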