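import Pool.Agent.Results.MP_bae66e_nt.ThinFamilySmallPrimes
import Pool.Agent.T2H58.SE.Tr

/-!
# Small prime summands in Goldbach representations of the members of Piatetski-Shapiro sequences

Definition used (in `Pool.Agent.H560R3.GB`): `sing m`: the singular series
`2 C₂ ∏_{p ∣ m, p > 2} (p - 1) / (p - 2)`, where `C₂ = ∏_{p > 2} (1 - 1 / (p - 1) ^ 2)`.

Method. By the estimates of van der Corput and of Kusmin and Landau, the additive energy of a sufficiently large order `h`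
of the integers `⌊f(n)⌋`, `n ≤ x`, is at most `x^(2h-c)` times a power of `log x`. The circle method then gives the
numbers of Goldbach pairs in windows for almost all of these integers.
-/

set_option autoImplicit false

namespace Pool.Agent.Results.MP_bae66e_nt.RealPowerWindows

open Finset Pool.Agent.H560R3.GB

/-- The number of primes `p` with `y₁ < p ≤ y₂` such that `m - p` is a prime. -/
def R (m y₁ y₂ : ℕ) : ℕ := ((Ioc y₁ y₂).filter (fun p => p.Prime ∧ (m - p).Prime)).card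

/-- (1) There is a prime `p ≤ m / log ^ A m` such that `m - p` is a prime (thus `g(m) ≤ m / log ^ A m`
in the notation of the problem); (2) in every window `(y₁, y₂]` of a length of at least `m / log ^ A m`
with `0 ≤ y₁ < y₂ ≤ m / log m` the number of primes `p` such that `m - p` is a prime agrees with
`sing m * (y₂ - y₁) / log ^ 2 m` up to a relative error of at most `ε`. -/
def Holds (ε : ℝ) (A m : ℕ) : Prop :=
  (∃ p : ℕ, p.Prime ∧ (m - p).Prime ∧ (p : ℝ) ≤ m / Real.log m ^ A) ∧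
  ∀ y₁ y₂ : ℕ, y₁ < y₂ → (y₂ : ℝ) ≤ m / Real.log m → (m : ℝ) / Real.log m ^ A ≤ (y₂ : ℝ) - y₁ →
    |(R m y₁ y₂ : ℝ) - sing m * ((y₂ : ℝ) - y₁) / Real.log m ^ 2| ≤ ε * (sing m * ((y₂ : ℝ) - y₁) / Real.log m ^ 2)

/-- the function `f(x) = α x^c + ∑ β_i x^(γ_i)` -/
noncomputable def gpow (α c : ℝ) {l : ℕ} (β γ : Fin l → ℝ) (x : ℝ) : ℝ := α * x ^ c + ∑ i, β i * x ^ (γ i)

theorem gpow_eq (α c : ℝ) {l : ℕ} (β γ : Fin l → ℝ) : gpow α c β γ = Pool.Agent.T2H58.SE.gp α c β γ := rfl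

open Classical in
theorem first (α : ℝ) (hα : α ≠ 0) (c : ℝ) (hc : 0 < c) (hcn : ∀ n : ℕ, c ≠ n) {l : ℕ} (β γ : Fin l → ℝ)
    (hγ : ∀ i, γ i < c) (μ : ℤ) (hμ : μ ≠ 0) (A B U : ℕ) (ε : ℝ) (hε : 0 < ε) :
    ∃ x₀ : ℕ, ∀ x : ℕ, x₀ ≤ x → ∀ c₀ : ℤ, (|c₀| : ℝ) ≤ B * (x : ℝ) ^ c →
      (((Icc 1 x).filter (fun n : ℕ => 0 < c₀ + μ * ⌊gpow α c β γ n⌋ ∧ Even (c₀ + μ * ⌊gpow α c β γ n⌋) ∧
        ¬ Holds ε A (c₀ + μ * ⌊gpow α c β γ n⌋).toNat)).card : ℝ) ≤ x / Real.log x ^ U := by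
  obtain ⟨h, C, hh, hen⟩ := Pool.Agent.T2H58.SE.fam_energy α hα c hc hcn β γ hγ
  obtain ⟨N₀, hmod⟩ := Pool.Agent.Results.MP_bae66e_nt.ThinFamilySmallPrimes.first h A 1 C (U + 1) hh ε hε
  obtain ⟨B₁, hB₁, x₂, hx₂, hpar⟩ := Pool.Agent.T2H58.SE.params α c hc β γ hγ μ B A U N₀
  obtain ⟨x₁, _, hen1⟩ := hen (2 * B₁) (by positivity)
  refine ⟨max x₁ x₂, fun x hx c₀ hc₀ => ?_⟩
  have hxx1 : x₁ ≤ x := (le_max_left _ _).trans hx
  have hxx2 : x₂ ≤ x := (le_max_right _ _).trans hx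
  obtain ⟨N, hN0, hN3, hN2, hl1, -, hlU, hbd⟩ := hpar x hxx2
  have hfc : Fintype.card (Icc 1 x : Finset ℕ) = x := by rw [Fintype.card_coe, Nat.card_Icc, Nat.add_sub_cancel]
  have h1 := hmod N hN0 (Icc 1 x : Finset ℕ) (fun i => (fun m : ℕ => c₀ + μ * ⌊gpow α c β γ m⌋) i.1) (fun i => by
      have := (abs_le.1 (hbd c₀ hc₀ i.1 i.2)).2
      rw [← gpow_eq] at this
      push_cast
      linarith) (by
    rw [hfc]
    refine le_trans (mul_le_mul_of_nonneg_right ?_ (Nat.cast_nonneg _)) (hen1 x hxx1 c₀ μ hμ N hN3 hN2)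
    rw [← gpow_eq]
    exact_mod_cast Pool.Agent.T2H58.SE.energy_sub h x (fun m => c₀ + μ * ⌊gpow α c β γ m⌋))
  rw [hfc] at h1
  unfold Pool.Agent.Results.MP_bae66e_nt.ThinFamilySmallPrimes.exceptions at h1
  have h3 : (((Icc 1 x).filter (fun n : ℕ => 0 < c₀ + μ * ⌊gpow α c β γ n⌋ ∧ Even (c₀ + μ * ⌊gpow α c β γ n⌋) ∧
        ¬ Holds ε A (c₀ + μ * ⌊gpow α c β γ n⌋).toNat)).card : ℝ) ≤ x / Real.log N ^ (U + 1) := by
    refine le_trans (Nat.cast_le.2 (Pool.Agent.T2H58.SE.card_sub x _ _ ?_)) h1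
    intro i hi
    exact mem_filter.2 ⟨mem_univ i, hi.1, hi.2.1, fun hg => hi.2.2 hg⟩
  refine h3.trans ?_
  apply div_le_div_of_nonneg_left (Nat.cast_nonneg _) (by positivity) hlU

open Classical in
/-- **Goldbach pairs in windows for almost all members of Piatetski-Shapiro sequences.** Let
`f(x) = α x^c + ∑ β_i x^(γ_i)` with real `α ≠ 0`, `c > 0`, `β_i`, `γ_i < c`, where `c` is not an integer (for instance
`f(x) = x^c`, or `x^c` plus an arbitrary real polynomial of degree less than `c`). Let `A`, `B`, `U`, the integer `μ ≠ 0`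
and `ε > 0` be fixed.
1. Let `x` be large and let `c₀` be an arbitrary integer with `|c₀| ≤ B x^c`. For all the integers `1 ≤ n ≤ x`, with at
most `x / (log x)^U` exceptions, the integer `m = c₀ + μ ⌊f(n)⌋` is `≤ 0`, or odd, or there is a prime
`p ≤ m / log ^ A m` such that `m - p` is a prime, and in all windows of length at least `m / log ^ A m` in
`(0, m / log m]` the number of such primes is as predicted, up to a relative error of at most `ε`.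
2. If `α > 0` and `x` is large then, for all the integers `1 ≤ n ≤ x` with at most `x / (log x)^U` exceptions, `⌊f(n)⌋` is
positive, `2 ⌊f(n)⌋` has the properties in 1, and `⌊f(n)⌋` has the properties in 1 if it is even. -/
theorem result (α : ℝ) (hα : α ≠ 0) (c : ℝ) (hc : 0 < c) (hcn : ∀ n : ℕ, c ≠ n) {l : ℕ} (β γ : Fin l → ℝ)
    (hγ : ∀ i, γ i < c) (μ : ℤ) (hμ : μ ≠ 0) (A B U : ℕ) (ε : ℝ) (hε : 0 < ε) :
    (∃ x₀ : ℕ, ∀ x : ℕ, x₀ ≤ x → ∀ c₀ : ℤ, (|c₀| : ℝ) ≤ B * (x : ℝ) ^ c →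
      (((Icc 1 x).filter (fun n : ℕ => 0 < c₀ + μ * ⌊gpow α c β γ n⌋ ∧ Even (c₀ + μ * ⌊gpow α c β γ n⌋) ∧
        ¬ Holds ε A (c₀ + μ * ⌊gpow α c β γ n⌋).toNat)).card : ℝ) ≤ x / Real.log x ^ U) ∧
    (0 < α → ∃ x₀ : ℕ, ∀ x : ℕ, x₀ ≤ x →
      (((Icc 1 x).filter (fun n : ℕ => ¬ (0 < ⌊gpow α c β γ n⌋ ∧ (Holds ε A (2 * ⌊gpow α c β γ n⌋).toNat ∧
        (Even ⌊gpow α c β γ n⌋ → Holds ε A ⌊gpow α c β γ n⌋.toNat))))).card : ℝ) ≤ x / Real.log x ^ U) := by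
  refine ⟨first α hα c hc hcn β γ hγ μ hμ A B U ε hε, fun hα0 => ?_⟩
  rw [gpow_eq]
  apply Pool.Agent.T2H58.SE.pos_most α c hα0 hc β γ hγ U (fun n : ℕ => Holds ε A (2 * ⌊Pool.Agent.T2H58.SE.gp α c β γ n⌋).toNat ∧
        (Even ⌊Pool.Agent.T2H58.SE.gp α c β γ n⌋ → Holds ε A ⌊Pool.Agent.T2H58.SE.gp α c β γ n⌋.toNat))
  obtain ⟨x₁, h1⟩ := first α hα c hc hcn β γ hγ 1 one_ne_zero A 0 (U + 2) ε hε
  obtain ⟨x₂, h2⟩ := first α hα c hc hcn β γ hγ 2 two_ne_zero A 0 (U + 2) ε hε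
  obtain ⟨x₃, h3⟩ := Pool.Agent.T2H58.SE.ev_div 0 2 le_rfl 0
  refine ⟨max x₁ (max x₂ x₃), fun x hx => ?_⟩
  have a1 := h1 x ((le_max_left _ _).trans hx) 0 (by simp)
  have a2 := h2 x ((le_max_left _ _).trans ((le_max_right _ _).trans hx)) 0 (by simp)
  obtain ⟨a3, -⟩ := h3 x ((le_max_right _ _).trans ((le_max_right _ _).trans hx))
  simp only [zero_add, one_mul] at a1 a2
  rw [gpow_eq] at a1 a2
  have hsub : (Icc 1 x).filter (fun n : ℕ => 0 < ⌊Pool.Agent.T2H58.SE.gp α c β γ n⌋ ∧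
      ¬ (Holds ε A (2 * ⌊Pool.Agent.T2H58.SE.gp α c β γ n⌋).toNat ∧
        (Even ⌊Pool.Agent.T2H58.SE.gp α c β γ n⌋ → Holds ε A ⌊Pool.Agent.T2H58.SE.gp α c β γ n⌋.toNat))) ⊆
      ((Icc 1 x).filter (fun n : ℕ => 0 < ⌊Pool.Agent.T2H58.SE.gp α c β γ n⌋ ∧ Even ⌊Pool.Agent.T2H58.SE.gp α c β γ n⌋ ∧
        ¬ Holds ε A ⌊Pool.Agent.T2H58.SE.gp α c β γ n⌋.toNat)) ∪
      ((Icc 1 x).filter (fun n : ℕ => 0 < 2 * ⌊Pool.Agent.T2H58.SE.gp α c β γ n⌋ ∧ Even (2 * ⌊Pool.Agent.T2H58.SE.gp α c β γ n⌋) ∧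
        ¬ Holds ε A (2 * ⌊Pool.Agent.T2H58.SE.gp α c β γ n⌋).toNat)) := by
    intro n hn
    rw [mem_filter] at hn
    obtain ⟨hn1, hn2, hn3⟩ := hn
    rw [mem_union, mem_filter, mem_filter]
    by_cases h4 : Holds ε A (2 * ⌊Pool.Agent.T2H58.SE.gp α c β γ n⌋).toNat
    · left
      have h5 : ¬ (Even ⌊Pool.Agent.T2H58.SE.gp α c β γ n⌋ → Holds ε A ⌊Pool.Agent.T2H58.SE.gp α c β γ n⌋.toNat) :=
        fun h => hn3 ⟨h4, h⟩
      push Not at h5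
      exact ⟨hn1, hn2, h5.1, h5.2⟩
    · right
      exact ⟨hn1, by omega, even_two_mul _, h4⟩
  have h4 := (card_le_card hsub).trans (card_union_le _ _)
  have h5 := (Nat.cast_le (α := ℝ)).2 h4
  rw [Nat.cast_add] at h5
  refine h5.trans ((add_le_add a1 a2).trans ?_)
  have hx0 : (0 : ℝ) ≤ x / Real.log x ^ (U + 2) := by positivity
  have e : (x : ℝ) / Real.log x ^ (U + 1) = (x / Real.log x ^ (U + 2)) * Real.log x := by
    have : Real.log (x : ℝ) ≠ 0 := by linarith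
    rw [show U + 2 = (U + 1) + 1 by ring, pow_succ _ (U + 1)]; field_simp
  rw [e]
  nlinarith

end Pool.Agent.Results.MP_bae66e_nt.RealPowerWindows
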